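import Pool.Agent.TH62.PL.Stms
import Pool.Agent.Helper407.PLHH

set_option autoImplicit false

/-!
Hall–Higman Lemma 1.2.3 for `O_π' O_π`.
-/

namespace Pool.Agent.TH777.J736

open Pool.Agent.TH62.PL

lemma PN.one (σ : Set ℕ) : PN σ 1 :=
  ⟨one_ne_zero, fun _ hp h => absurd (Nat.dvd_one.1 h) hp.one_lt.ne'⟩

lemma PN.mul {σ : Set ℕ} {a b : ℕ} (ha : PN σ a) (hb : PN σ b) : PN σ (a * b) :=
  ⟨mul_ne_zero ha.1 hb.1, fun p hp h => ((Nat.Prime.dvd_mul hp).1 h).elim (ha.2 p hp) (hb.2 p hp)⟩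

lemma PN.dvd {σ : Set ℕ} {a b : ℕ} (hb : PN σ b) (h : a ∣ b) : PN σ a :=
  ⟨fun h0 => hb.1 (Nat.eq_zero_of_zero_dvd (h0 ▸ h)), fun p hp h' => hb.2 p hp (h'.trans h)⟩

lemma PN.mono {σ τ : Set ℕ} {a : ℕ} (ha : PN σ a) (h : ∀ p ∈ σ, p ∈ τ) : PN τ a :=
  ⟨ha.1, fun p hp h' => h p (ha.2 p hp h')⟩

lemma PN.coprime {σ τ : Set ℕ} {a b : ℕ} (ha : PN σ a) (hb : PN τ b)
    (h : ∀ p ∈ σ, p ∈ τ → False) : a.Coprime b := by
  refine Nat.coprime_of_dvd fun p hp h1 h2 => ?_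
  exact h p (ha.2 p hp h1) (hb.2 p hp h2)

section
variable {G : Type} [Group G] [Finite G]

lemma PF_index {σ : Set ℕ} {Z X : Subgroup G} (hn : (Z.subgroupOf X).Normal) (h : PF σ Z X) :
    PN σ (Z.relIndex X) := by
  have h1 : Z.relIndex X = Nat.card (X ⧸ Z.subgroupOf X) := rfl
  rw [h1]
  refine ⟨Nat.card_pos.ne', fun p hp hd => ?_⟩
  have := Fact.mk hp
  obtain ⟨x, hx⟩ := exists_prime_orderOf_dvd_card' p hd
  induction x using QuotientGroup.induction_on with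
  | H x =>
    obtain ⟨m, hm, hm'⟩ := h x x.2
    have h3 : orderOf (QuotientGroup.mk x : X ⧸ Z.subgroupOf X) ∣ m := by
      apply orderOf_dvd_of_pow_eq_one
      rw [← QuotientGroup.mk_pow, QuotientGroup.eq_one_iff, Subgroup.mem_subgroupOf]
      simpa using hm'
    rw [hx] at h3
    exact hm.2 p hp h3

lemma PF_card {σ : Set ℕ} {X : Subgroup G} (h : PF σ ⊥ X) : PN σ (Nat.card X) := by
  refine ⟨Nat.card_pos.ne', fun p hp hd => ?_⟩
  have := Fact.mk hp
  obtain ⟨x, hx⟩ := exists_prime_orderOf_dvd_card' p hd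
  obtain ⟨m, hm, hm'⟩ := h x x.2
  rw [Subgroup.mem_bot] at hm'
  have h3 : orderOf x ∣ m := orderOf_dvd_of_pow_eq_one (Subtype.ext (by simpa using hm'))
  rw [hx] at h3
  exact hm.2 p hp h3

omit [Finite G] in
lemma pow_card_mem {X : Subgroup G} {x : G} (hx : x ∈ X) : x ^ Nat.card X = 1 := by
  have h1 : (⟨x, hx⟩ : X) ^ Nat.card X = 1 := pow_card_eq_one'
  have h2 : ((⟨x, hx⟩ : X) ^ Nat.card X : X).1 = (1 : X).1 := by rw [h1]
  simpa only [Subgroup.coe_pow, Subgroup.coe_one] using h2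

/-- the inductive step -/
lemma step {σ τ : Set ℕ} (hd : ∀ p ∈ σ, p ∈ τ → False) (A B X Y : Subgroup G) (hA : A.Normal)
    (hB : B.Normal) (hX : X.Normal) (hA1 : PF τ ⊥ A) (hB1 : PF σ ⊥ B)
    (hmax : ∀ N : Subgroup G, N.Normal → PF σ ⊥ N → N ≤ B) (hY : Y ≤ A ⊔ B)
    (hYX : PF σ Y X) (hc : ∀ x ∈ X, ∀ y ∈ A ⊔ B, x * y = y * x) : X ≤ A ⊔ B := by
  have hZX : PF σ (X ⊓ A) X := by
    intro x hx
    obtain ⟨m, hm, hm'⟩ := hYX x hx
    obtain ⟨a, ha, b, hb, hab⟩ := Subgroup.mem_sup_of_normal_right.1 (hY hm')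
    have hcomm : Commute a b := by
      have h1 : b * a * b⁻¹ * a⁻¹ ∈ A := A.mul_mem (hA.conj_mem a ha b) (A.inv_mem ha)
      have h2 : b * a * b⁻¹ * a⁻¹ ∈ B := by
        have := hB.conj_mem b⁻¹ (B.inv_mem hb) a
        have h3 := B.mul_mem hb this
        simpa [mul_assoc] using h3
      have h3 : orderOf (b * a * b⁻¹ * a⁻¹) ∣ Nat.card A := Subgroup.orderOf_dvd_natCard A h1
      have h4 : orderOf (b * a * b⁻¹ * a⁻¹) ∣ Nat.card B := Subgroup.orderOf_dvd_natCard B h2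
      have h5 : (Nat.card B).Coprime (Nat.card A) := PN.coprime (PF_card hB1) (PF_card hA1) hd
      have h6 : orderOf (b * a * b⁻¹ * a⁻¹) = 1 := Nat.eq_one_of_dvd_coprimes h5 h4 h3
      rw [orderOf_eq_one_iff] at h6
      have h7 : b * a * b⁻¹ = a := by
        rw [mul_inv_eq_one] at h6
        exact h6
      have h8 : b * a = a * b := by
        calc b * a = b * a * b⁻¹ * b := by group
          _ = a * b := by rw [h7]
      exact h8.symm
    refine ⟨m * Nat.card B, PN.mul hm (PF_card hB1), X.pow_mem hx _, ?_⟩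
    rw [pow_mul, ← hab, hcomm.mul_pow, pow_card_mem hb, mul_one]
    exact A.pow_mem ha _
  set Z := X ⊓ A with hZd
  have hZX' : Z ≤ X := inf_le_left
  have hcen : ∀ g ∈ X, ∀ z ∈ Z, z * g = g * z :=
    fun g hg z hz => (hc g hg z ((le_sup_left : A ≤ A ⊔ B) hz.2)).symm
  have hcardZ : PN τ (Nat.card Z) :=
    PN.dvd (PF_card hA1) (Subgroup.card_dvd_of_le (inf_le_right : Z ≤ A))
  have hidx : PN σ (Z.relIndex X) :=
    PF_index (Pool.Agent.Helper407.PL.central_normal hcen) hZX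
  have hcop : (Nat.card Z).Coprime (Z.relIndex X) := (PN.coprime hidx hcardZ hd).symm
  have hcard : Nat.card (Z.subgroupOf X) = Nat.card Z :=
    Nat.card_congr (Subgroup.subgroupOfEquivOfLe hZX').toEquiv
  obtain ⟨K, hK1, hK2⟩ := Pool.Agent.Helper407.PL.central_complement (Z.subgroupOf X) (by
    intro z hz x
    apply Subtype.ext
    exact hcen x x.2 z (Subgroup.mem_subgroupOf.1 hz)) (by rw [hcard]; exact hcop)
  rw [hcard] at hK1
  let K' : Subgroup G := K.map X.subtype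
  have hK' : ∀ x, x ∈ K' ↔ x ∈ X ∧ (orderOf x).Coprime (Nat.card Z) := by
    intro x
    constructor
    · rintro ⟨y, hy, rfl⟩
      exact ⟨y.2, by simpa using (hK1 y).1 hy⟩
    · rintro ⟨hx, hx'⟩
      exact ⟨⟨x, hx⟩, (hK1 _).2 (by simpa using hx'), rfl⟩
  have hK'n : K'.Normal := by
    constructor
    intro x hx g
    rw [hK'] at hx ⊢
    refine ⟨hX.conj_mem x hx.1 g, ?_⟩
    have : orderOf (g * x * g⁻¹) = orderOf x :=
      orderOf_injective (MulAut.conj g).toMonoidHom (MulAut.conj g).injective x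
    rw [this]
    exact hx.2
  have hK'1 : PF σ ⊥ K' := by
    intro x hx
    have hx' := (hK' x).1 hx
    obtain ⟨m, hm, hm'⟩ := hZX x hx'.1
    refine ⟨m, hm, ?_⟩
    have h1 : orderOf (x ^ m) ∣ Nat.card Z := Subgroup.orderOf_dvd_natCard Z hm'
    have h2 : orderOf (x ^ m) ∣ orderOf x := orderOf_pow_dvd m
    have h3 : orderOf (x ^ m) = 1 := Nat.eq_one_of_dvd_coprimes hx'.2 h2 h1
    rw [Subgroup.mem_bot]
    exact orderOf_eq_one_iff.1 h3
  have hKB := hmax K' hK'n hK'1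
  intro x hx
  obtain ⟨z, hz, y, hy, hxy⟩ := hK2 ⟨x, hx⟩
  have hx1 : x = z * y := congrArg Subtype.val hxy
  rw [hx1]
  refine (A ⊔ B).mul_mem (Subgroup.mem_sup_left ?_) (Subgroup.mem_sup_right ?_)
  · exact (Subgroup.mem_subgroupOf.1 hz).2
  · exact hKB ⟨y, hy, rfl⟩

end

theorem hh : HHStm := by
  intro π G _ _ hs M R hM hR hM1 hR1 hMmax hRmax x hx
  obtain ⟨m, S, h0, hm, hle, hSn, hF⟩ := hs
  let C : Subgroup G := Subgroup.centralizer ((M ⊔ R : Subgroup G) : Set G)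
  have hCmem : ∀ {x : G}, x ∈ C → ∀ y ∈ M ⊔ R, x * y = y * x := by
    intro x hx y hy
    exact ((Subgroup.mem_centralizer_iff.1 hx) y hy).symm
  have hCn : C.Normal := by
    have : (M ⊔ R).Normal := Subgroup.sup_normal M R
    exact Subgroup.normal_centralizer
  have key : ∀ i ≤ m, C ⊓ S i ≤ M ⊔ R := by
    intro i
    induction i with
    | zero =>
      intro _
      rw [h0]
      simp
    | succ i ih =>
      intro hi
      have ih' := ih (by omega)
      have hX : (C ⊓ S (i + 1)).Normal := by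
        have := hSn (i + 1)
        exact Subgroup.normal_inf_normal _ _
      have hPF : ∀ {σ : Set ℕ}, PF σ (S i) (S (i + 1)) → PF σ (C ⊓ S i) (C ⊓ S (i + 1)) := by
        intro σ h x hx
        obtain ⟨k, hk, hk'⟩ := h x hx.2
        exact ⟨k, hk, C.pow_mem hx.1 _, hk'⟩
      rcases hF i (by omega) with h | ⟨q, hq, h⟩
      · rw [sup_comm] at ih' ⊢
        refine step (σ := πᶜ) (τ := π) (fun p h1 h2 => h1 h2) R M _ _ hR hM hX hR1 hM1 hMmax ih'
          (hPF h) ?_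
        intro x hx y hy
        rw [sup_comm] at hy
        exact hCmem hx.1 y hy
      · refine step (σ := π) (τ := πᶜ) (fun p h1 h2 => h2 h1) M R _ _ hM hR hX hM1 hR1 hRmax ih'
          ?_ ?_
        · intro x hx
          obtain ⟨k, hk, hk'⟩ := hPF h x hx
          exact ⟨k, PN.mono hk (by rintro p rfl; exact hq), hk'⟩
        · intro x hx y hy
          exact hCmem hx.1 y hy
  have h1 := key m le_rfl
  rw [hm, inf_top_eq] at h1
  refine h1 (Subgroup.mem_centralizer_iff.2 fun y hy => (hx y hy).symm)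

end Pool.Agent.TH777.J736
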